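import Pool.Agent.W23.DC.Defs

/-! DC-SFX: existence of the functions of the linear sieve. -/

namespace Pool.Agent.W366.DC

open Set intervalIntegral MeasureTheory

namespace SFXaux

/-- iteration for the delay equation `(s U)' = c U(s-1)` -/
noncomputable def it (c : ℝ) : ℕ → ℝ → ℝ
  | 0, s => 1 / max s 1
  | n + 1, s => (1 + c * ∫ x in (2 : ℝ)..(max s 2), it c n (x - 1)) / max s 2 +
      (1 / max (min s 2) 1 - 1 / 2)

theorem max_ne {a b : ℝ} (hb : 0 < b) : max a b ≠ 0 := (lt_of_lt_of_le hb (le_max_right _ _)).ne'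

theorem it_cont (c : ℝ) : ∀ n, Continuous (it c n)
  | 0 => by
    show Continuous fun s : ℝ => 1 / max s 1
    exact continuous_const.div (continuous_id.max continuous_const) (fun s => max_ne one_pos)
  | n + 1 => by
    have ih := it_cont c n
    have h1 : Continuous fun x : ℝ => it c n (x - 1) := ih.comp (continuous_id.sub continuous_const)
    have h2 : Continuous fun b : ℝ => ∫ x in (2 : ℝ)..b, it c n (x - 1) :=
      intervalIntegral.continuous_primitive (fun a b => h1.intervalIntegrable a b) 2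
    have hm : Continuous fun s : ℝ => max s 2 := continuous_id.max continuous_const
    have h3 : Continuous fun s : ℝ => ∫ x in (2 : ℝ)..(max s 2), it c n (x - 1) := h2.comp hm
    show Continuous fun s : ℝ => (1 + c * ∫ x in (2 : ℝ)..(max s 2), it c n (x - 1)) / max s 2 +
      (1 / max (min s 2) 1 - 1 / 2)
    refine Continuous.add ?_ ?_
    · exact (continuous_const.add (continuous_const.mul h3)).div hm (fun s => max_ne two_pos)
    · refine Continuous.sub ?_ continuous_const
      exact continuous_const.div ((continuous_id.min continuous_const).max continuous_const)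
        (fun s => max_ne one_pos)

theorem it_succ (c : ℝ) (n : ℕ) (s : ℝ) : it c (n + 1) s =
    (1 + c * ∫ x in (2 : ℝ)..(max s 2), it c n (x - 1)) / max s 2 +
      (1 / max (min s 2) 1 - 1 / 2) := rfl

theorem it_stat (c : ℝ) : ∀ (n : ℕ) (s : ℝ), s ≤ n + 2 → it c (n + 1) s = it c n s
  | 0, s, hs => by
    have hs2 : s ≤ 2 := by simpa using hs
    rw [it_succ, max_eq_right hs2, min_eq_left hs2, intervalIntegral.integral_same]
    show _ = 1 / max s 1
    ring
  | n + 1, s, hs => by
    rw [it_succ, it_succ]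
    have : ∫ x in (2 : ℝ)..(max s 2), it c (n + 1) (x - 1) =
        ∫ x in (2 : ℝ)..(max s 2), it c n (x - 1) := by
      refine intervalIntegral.integral_congr fun x hx => ?_
      rw [uIcc_of_le (le_max_right _ _)] at hx
      refine it_stat c n _ ?_
      have h1 := hx.2
      push_cast at hs
      rcases le_max_iff.mp h1 with h | h
      · linarith
      · have : (0 : ℝ) ≤ n := n.cast_nonneg
        linarith
    rw [this]

theorem it_le (c : ℝ) {n m : ℕ} (h : n ≤ m) {s : ℝ} (hs : s ≤ n + 2) : it c m s = it c n s := by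
  induction m, h using Nat.le_induction with
  | base => rfl
  | succ m hm ih =>
    rw [it_stat c m s (by
      have : (n : ℝ) ≤ m := by exact_mod_cast hm
      linarith), ih]

/-- the solution of the delay equation -/
noncomputable def U (c s : ℝ) : ℝ := it c ⌈s⌉₊ s

theorem U_eq (c : ℝ) (n : ℕ) {s : ℝ} (hs : s ≤ n + 2) : U c s = it c n s := by
  have h1 : s ≤ (⌈s⌉₊ : ℝ) + 2 := by
    have := Nat.le_ceil s
    linarith
  rw [U, ← it_le c (le_max_left ⌈s⌉₊ n) h1, ← it_le c (le_max_right ⌈s⌉₊ n) hs]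

theorem U_cont (c : ℝ) : Continuous (U c) := by
  rw [continuous_iff_continuousAt]
  intro s
  have h := (it_cont c ⌈s⌉₊).continuousAt (x := s)
  refine h.congr ?_
  have h1 : Iio ((⌈s⌉₊ : ℝ) + 2) ∈ nhds s := Iio_mem_nhds (by
    have := Nat.le_ceil s
    linarith)
  filter_upwards [h1] with t ht
  exact (U_eq c _ (le_of_lt ht)).symm

theorem U_fix (c s : ℝ) : U c s = (1 + c * ∫ x in (2 : ℝ)..(max s 2), U c (x - 1)) / max s 2 +
      (1 / max (min s 2) 1 - 1 / 2) := by
  have hn := Nat.le_ceil s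
  rw [U_eq c (⌈s⌉₊ + 1) (by push_cast; linarith), it_succ]
  have : ∫ x in (2 : ℝ)..(max s 2), it c ⌈s⌉₊ (x - 1) =
      ∫ x in (2 : ℝ)..(max s 2), U c (x - 1) := by
    refine intervalIntegral.integral_congr fun x hx => ?_
    rw [uIcc_of_le (le_max_right _ _)] at hx
    refine (U_eq c _ ?_).symm
    rcases le_max_iff.mp hx.2 with h | h
    · linarith
    · have : (0 : ℝ) ≤ (⌈s⌉₊ : ℝ) := Nat.cast_nonneg _
      linarith
  rw [this]

theorem U_le {c s : ℝ} (h1 : 1 ≤ s) (h2 : s ≤ 2) : U c s = 1 / s := by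
  rw [U_fix, max_eq_right h2, min_eq_left h2, max_eq_left h1, intervalIntegral.integral_same]
  ring

theorem U_ge {c s : ℝ} (h2 : 2 ≤ s) : s * U c s = 1 + c * ∫ x in (2 : ℝ)..s, U c (x - 1) := by
  rw [U_fix, max_eq_left h2, min_eq_right h2, max_eq_left one_le_two]
  have : s ≠ 0 := by linarith
  field_simp
  ring

theorem U_sh_cont (c : ℝ) : Continuous fun x : ℝ => U c (x - 1) :=
  (U_cont c).comp (continuous_id.sub continuous_const)

theorem U_deriv {c s : ℝ} (h2 : 2 < s) : HasDerivAt (U c) ((c * U c (s - 1) - U c s) / s) s := by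
  have hs : s ≠ 0 := by linarith
  have h1 : HasDerivAt (fun t : ℝ => ∫ x in (2 : ℝ)..t, U c (x - 1)) (U c (s - 1)) s :=
    ((U_sh_cont c).integral_hasStrictDerivAt 2 s).hasDerivAt
  have h3 : HasDerivAt (fun t : ℝ => (1 + c * ∫ x in (2 : ℝ)..t, U c (x - 1)) / t)
      (((c * U c (s - 1)) * s - (1 + c * ∫ x in (2 : ℝ)..s, U c (x - 1)) * 1) / s ^ 2) s :=
    ((h1.const_mul c).const_add 1).div (hasDerivAt_id s) hs
  have h4 : ((c * U c (s - 1)) * s - (1 + c * ∫ x in (2 : ℝ)..s, U c (x - 1)) * 1) / s ^ 2 =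
      (c * U c (s - 1) - U c s) / s := by
    rw [← U_ge h2.le]
    field_simp
  rw [h4] at h3
  refine h3.congr_of_eventuallyEq ?_
  filter_upwards [Ioi_mem_nhds h2] with t ht
  have ht' : (2 : ℝ) < t := ht
  have ht0 : t ≠ 0 := by linarith
  rw [← U_ge ht'.le]
  field_simp

/-- `∫_{s-1}^s x Q(x) dx` -/
theorem Q_int {s : ℝ} (h2 : 2 ≤ s) :
    s * (s - 1) * U (-1) s = ∫ x in (s - 1)..s, x * U (-1) x := by
  have hc : Continuous fun x : ℝ => x * U (-1) x := continuous_id.mul (U_cont _)
  let G : ℝ → ℝ := fun s => s * (s - 1) * U (-1) s -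
    ((∫ x in (1 : ℝ)..s, x * U (-1) x) - ∫ x in (1 : ℝ)..(s - 1), x * U (-1) x)
  have hGd : ∀ t : ℝ, 2 < t → HasDerivAt G 0 t := by
    intro t ht
    have ht0 : t ≠ 0 := by linarith
    have e1 : HasDerivAt (fun s : ℝ => s * (s - 1)) (1 * (t - 1) + t * 1) t :=
      (hasDerivAt_id t).mul ((hasDerivAt_id t).sub_const 1)
    have e2 := e1.mul (U_deriv (c := -1) ht)
    have e3 : HasDerivAt (fun s : ℝ => ∫ x in (1 : ℝ)..s, x * U (-1) x) (t * U (-1) t) t :=
      (hc.integral_hasStrictDerivAt 1 t).hasDerivAt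
    have e4 : HasDerivAt (fun s : ℝ => ∫ x in (1 : ℝ)..(s - 1), x * U (-1) x)
        ((t - 1) * U (-1) (t - 1)) t := by
      have := (hc.integral_hasStrictDerivAt 1 (t - 1)).hasDerivAt
      exact this.comp_sub_const t 1
    have e5 := e2.sub (e3.sub e4)
    refine e5.congr_deriv ?_
    field_simp
    ring
  have hGc : Continuous G := by
    have e3 : Continuous (fun s : ℝ => ∫ x in (1 : ℝ)..s, x * U (-1) x) :=
      intervalIntegral.continuous_primitive (fun a b => hc.intervalIntegrable a b) 1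
    have e4 : Continuous (fun s : ℝ => ∫ x in (1 : ℝ)..(s - 1), x * U (-1) x) :=
      e3.comp (continuous_id.sub continuous_const)
    exact (((continuous_id.mul (continuous_id.sub continuous_const))).mul (U_cont _)).sub
      (e3.sub e4)
  have hG2 : G 2 = 0 := by
    have e1 : ∫ x in (1 : ℝ)..2, x * U (-1) x = ∫ x in (1 : ℝ)..2, (1 : ℝ) := by
      refine intervalIntegral.integral_congr fun x hx => ?_
      rw [uIcc_of_le one_le_two] at hx
      have hx0 : x ≠ 0 := by linarith [hx.1]
      show x * U (-1) x = 1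
      rw [U_le hx.1 hx.2]
      field_simp
    show 2 * (2 - 1) * U (-1) 2 -
      ((∫ x in (1 : ℝ)..2, x * U (-1) x) - ∫ x in (1 : ℝ)..(2 - 1), x * U (-1) x) = 0
    have e2 : (2 : ℝ) - 1 = 1 := by norm_num
    rw [e1, e2, U_le one_le_two le_rfl, intervalIntegral.integral_same]
    simp
    norm_num
  have hconst : G s = G 2 := by
    have hanti : AntitoneOn G (Ici 2) := by
      refine antitoneOn_of_deriv_nonpos (convex_Ici 2) hGc.continuousOn ?_ ?_
      · intro x hx
        rw [interior_Ici] at hx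
        exact (hGd x hx).differentiableAt.differentiableWithinAt
      · intro x hx
        rw [interior_Ici] at hx
        rw [(hGd x hx).deriv]
    have hmono : MonotoneOn G (Ici 2) := by
      refine monotoneOn_of_deriv_nonneg (convex_Ici 2) hGc.continuousOn ?_ ?_
      · intro x hx
        rw [interior_Ici] at hx
        exact (hGd x hx).differentiableAt.differentiableWithinAt
      · intro x hx
        rw [interior_Ici] at hx
        rw [(hGd x hx).deriv]
    exact le_antisymm (hanti self_mem_Ici h2 h2) (hmono self_mem_Ici h2 h2)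
  have h0 : G s = 0 := by rw [hconst, hG2]
  have h1 : (∫ x in (1 : ℝ)..s, x * U (-1) x) - ∫ x in (1 : ℝ)..(s - 1), x * U (-1) x =
      ∫ x in (s - 1)..s, x * U (-1) x :=
    intervalIntegral.integral_interval_sub_left (hc.intervalIntegrable _ _)
      (hc.intervalIntegrable _ _)
  have h2 : s * (s - 1) * U (-1) s -
    ((∫ x in (1 : ℝ)..s, x * U (-1) x) - ∫ x in (1 : ℝ)..(s - 1), x * U (-1) x) = 0 := h0
  rw [h1] at h2
  linarith

theorem Q_pos {s : ℝ} (hs : 1 ≤ s) : 0 < U (-1) s := by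
  by_contra hneg
  push Not at hneg
  let Z : Set ℝ := {x | 1 ≤ x ∧ U (-1) x ≤ 0}
  have hZc : IsClosed Z := (isClosed_le continuous_const continuous_id).inter
    (isClosed_le (U_cont _) continuous_const)
  have hZn : Z.Nonempty := ⟨s, hs, hneg⟩
  have hZb : BddBelow Z := ⟨1, fun x hx => hx.1⟩
  set a := sInf Z with ha
  have haZ : a ∈ Z := hZc.csInf_mem hZn hZb
  have hlt : ∀ x, 1 ≤ x → x < a → 0 < U (-1) x := by
    intro x h1 hx
    by_contra hx'
    push Not at hx'
    exact notMem_of_lt_csInf hx hZb ⟨h1, hx'⟩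
  have ha2 : 2 < a := by
    by_contra h
    push Not at h
    have h3 := haZ.2
    rw [U_le haZ.1 h] at h3
    have : 0 < 1 / a := by
      have := haZ.1
      positivity
    linarith
  have hI := Q_int ha2.le
  have hpos : 0 < ∫ x in (a - 1)..a, x * U (-1) x := by
    refine intervalIntegral.intervalIntegral_pos_of_pos_on
      ((continuous_id.mul (U_cont _)).intervalIntegrable _ _) ?_ (by linarith)
    intro x hx
    have h1 : 1 < x := by linarith [hx.1]
    exact mul_pos (by linarith) (hlt x h1.le hx.2)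
  rw [← hI] at hpos
  have h3 := haZ.2
  have h4 : a * (a - 1) * U (-1) a ≤ 0 :=
    mul_nonpos_of_nonneg_of_nonpos (mul_nonneg (by linarith) (by linarith)) h3
  linarith

/-- `P(s) - P(s-1)` -/
noncomputable def E (s : ℝ) : ℝ := U 1 s - U 1 (s - 1)

/-- `Q(s) + Q(s-1)` -/
noncomputable def R (s : ℝ) : ℝ := U (-1) s + U (-1) (s - 1)

theorem int_inv {s : ℝ} (h2 : 2 ≤ s) : ∫ x in (2 : ℝ)..s, (1 / (x - 1) : ℝ) = Real.log (s - 1) := by
  have h := intervalIntegral.integral_comp_sub_right (a := 2) (b := s) (fun x : ℝ => 1 / x) 1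
  rw [h, integral_one_div_of_pos (by norm_num) (by linarith)]
  congr 1
  norm_num

theorem U_mid {c s : ℝ} (h2 : 2 ≤ s) (h3 : s ≤ 3) :
    s * U c s = 1 + c * Real.log (s - 1) := by
  rw [U_ge h2, ← int_inv h2]
  congr 2
  refine intervalIntegral.integral_congr fun x hx => ?_
  rw [uIcc_of_le h2] at hx
  exact U_le (by linarith [hx.1]) (by linarith [hx.2])

theorem base {s : ℝ} (h2 : 2 ≤ s) (h3 : s ≤ 3) : |E s| < R s := by
  have hs : 0 < s := by linarith
  have e1 : U 1 s = (1 + Real.log (s - 1)) / s := by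
    rw [eq_div_iff hs.ne', mul_comm, U_mid h2 h3]; ring
  have e2 : U (-1) s = (1 - Real.log (s - 1)) / s := by
    rw [eq_div_iff hs.ne', mul_comm, U_mid h2 h3]; ring
  have e3 : U 1 (s - 1) = 1 / (s - 1) := U_le (by linarith) (by linarith)
  have e4 : U (-1) (s - 1) = 1 / (s - 1) := U_le (by linarith) (by linarith)
  rw [E, R, e1, e2, e3, e4, abs_lt]
  have hs1 : 0 < s - 1 := by linarith
  have hlog : Real.log (s - 1) ≤ s - 1 - 1 := Real.log_le_sub_one_of_pos hs1
  have hp : 0 < 1 / s := by positivity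
  constructor
  · have : (1 + Real.log (s - 1)) / s - 1 / (s - 1) + ((1 - Real.log (s - 1)) / s + 1 / (s - 1)) =
        2 * (1 / s) := by ring
    linarith
  · have h5 : Real.log (s - 1) / s ≤ (s - 1 - 1) / s := by gcongr
    have h6 : (s - 1 - 1) / s < 1 / (s - 1) := by
      rw [div_lt_div_iff₀ hs hs1]
      nlinarith
    have : ((1 - Real.log (s - 1)) / s + 1 / (s - 1)) - ((1 + Real.log (s - 1)) / s - 1 / (s - 1)) =
        2 * (1 / (s - 1) - Real.log (s - 1) / s) := by ring
    linarith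

theorem E_cont : Continuous E := (U_cont _).sub (U_sh_cont _)
theorem R_cont : Continuous R := (U_cont _).add (U_sh_cont _)

theorem key {s : ℝ} (h2 : 2 ≤ s) : |E s| < R s := by
  by_contra hneg
  push Not at hneg
  let Z : Set ℝ := {x | 2 ≤ x ∧ R x ≤ |E x|}
  have hZc : IsClosed Z := (isClosed_le continuous_const continuous_id).inter
    (isClosed_le R_cont E_cont.abs)
  have hZn : Z.Nonempty := ⟨s, h2, hneg⟩
  have hZb : BddBelow Z := ⟨2, fun x hx => hx.1⟩
  set a := sInf Z with ha
  have haZ : a ∈ Z := hZc.csInf_mem hZn hZb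
  have hlt : ∀ x, 2 ≤ x → x < a → |E x| < R x := by
    intro x h1 hx
    by_contra hx'
    push Not at hx'
    exact notMem_of_lt_csInf hx hZb ⟨h1, hx'⟩
  have ha3 : 3 < a := by
    by_contra h
    push Not at h
    exact absurd (base haZ.1 h) (not_lt.mpr haZ.2)
  have hpos : ∀ x ∈ uIcc (a - 1) a, (2 : ℝ) < x := by
    intro x hx
    rw [uIcc_of_le (by linarith)] at hx
    linarith [hx.1]
  have hdiv : ∀ (f : ℝ → ℝ), Continuous f → ContinuousOn (fun x => f x / x) (uIcc (a - 1) a) :=
    fun f hf => hf.continuousOn.div continuousOn_id (fun x hx => by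
      have := hpos x hx
      show x ≠ 0
      linarith)
  have iE : ∫ x in (a - 1)..a, -(E x / x) = E a := by
    refine intervalIntegral.integral_eq_sub_of_hasDerivAt (f := U 1) ?_ ?_
    · intro x hx
      refine (U_deriv (hpos x hx)).congr_deriv ?_
      rw [E]; ring
    · exact (hdiv E E_cont).neg.intervalIntegrable
  have iR : ∫ x in (a - 1)..a, R x / x = U (-1) (a - 1) - U (-1) a := by
    have := intervalIntegral.integral_eq_sub_of_hasDerivAt (f := fun x => - U (-1) x)
      (f' := fun x => R x / x) (a := a - 1) (b := a) ?_ ?_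
    · rw [this]; ring
    · intro x hx
      refine (U_deriv (hpos x hx)).neg.congr_deriv ?_
      rw [R]; ring
    · exact (hdiv R R_cont).intervalIntegrable
  have h1 : |E a| ≤ ∫ x in (a - 1)..a, |-(E x / x)| := by
    rw [← iE]
    exact intervalIntegral.abs_integral_le_integral_abs (by linarith)
  have h4 : ∫ x in (a - 1)..a, |-(E x / x)| ≤ ∫ x in (a - 1)..a, R x / x := by
    refine intervalIntegral.integral_mono_on_of_le_Ioo (by linarith)
      (hdiv E E_cont).neg.abs.intervalIntegrable (hdiv R R_cont).intervalIntegrable ?_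
    intro x hx
    have hx0 : 0 < x := by linarith [hx.1]
    rw [abs_neg, abs_div, abs_of_pos hx0]
    have := (hlt x (by linarith [hx.1]) hx.2).le
    gcongr
  have h5 := haZ.2
  have h6 : 0 < U (-1) a := Q_pos (by linarith)
  rw [iR] at h4
  have : R a = U (-1) a + U (-1) (a - 1) := rfl
  linarith

/-- the upper sieve function -/
noncomputable def F1 (s : ℝ) : ℝ := (U 1 s + U (-1) s) / 2
/-- the lower sieve function -/
noncomputable def f1 (s : ℝ) : ℝ := (U 1 s - U (-1) s) / 2

theorem F1_cont : Continuous F1 := ((U_cont _).add (U_cont _)).div_const 2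
theorem f1_cont : Continuous f1 := ((U_cont _).sub (U_cont _)).div_const 2

theorem F1_sh : Continuous fun x : ℝ => F1 (x - 1) :=
  F1_cont.comp (continuous_id.sub continuous_const)
theorem f1_sh : Continuous fun x : ℝ => f1 (x - 1) :=
  f1_cont.comp (continuous_id.sub continuous_const)

theorem F1_le {s : ℝ} (h1 : 1 ≤ s) (h2 : s ≤ 2) : F1 s = 1 / s := by
  rw [F1, U_le h1 h2, U_le h1 h2]; ring

theorem f1_le {s : ℝ} (h1 : 1 ≤ s) (h2 : s ≤ 2) : f1 s = 0 := by
  rw [f1, U_le h1 h2, U_le h1 h2]; ring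

theorem int_add (s : ℝ) : ∫ x in (2 : ℝ)..s, F1 (x - 1) =
    ((∫ x in (2 : ℝ)..s, U 1 (x - 1)) + ∫ x in (2 : ℝ)..s, U (-1) (x - 1)) / 2 := by
  rw [← intervalIntegral.integral_add ((U_sh_cont _).intervalIntegrable _ _)
    ((U_sh_cont _).intervalIntegrable _ _), ← intervalIntegral.integral_div]
  rfl

theorem int_sub (s : ℝ) : ∫ x in (2 : ℝ)..s, f1 (x - 1) =
    ((∫ x in (2 : ℝ)..s, U 1 (x - 1)) - ∫ x in (2 : ℝ)..s, U (-1) (x - 1)) / 2 := by
  rw [← intervalIntegral.integral_sub ((U_sh_cont _).intervalIntegrable _ _)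
    ((U_sh_cont _).intervalIntegrable _ _), ← intervalIntegral.integral_div]
  rfl

theorem F1_eq {s : ℝ} (h2 : 2 ≤ s) : s * F1 s = 1 + ∫ x in (2 : ℝ)..s, f1 (x - 1) := by
  have e1 := U_ge (c := 1) h2
  have e2 := U_ge (c := -1) h2
  rw [int_sub, F1]
  linarith

theorem f1_eq {s : ℝ} (h2 : 2 ≤ s) : s * f1 s = ∫ x in (2 : ℝ)..s, F1 (x - 1) := by
  have e1 := U_ge (c := 1) h2
  have e2 := U_ge (c := -1) h2
  rw [int_add, f1]
  linarith

theorem int_f1 : ∀ {s : ℝ}, 2 ≤ s → s ≤ 3 → ∫ x in (2 : ℝ)..s, f1 (x - 1) = 0 := by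
  intro s h2 h3
  have : ∫ x in (2 : ℝ)..s, f1 (x - 1) = ∫ x in (2 : ℝ)..s, (0 : ℝ) := by
    refine intervalIntegral.integral_congr fun x hx => ?_
    rw [uIcc_of_le h2] at hx
    exact f1_le (by linarith [hx.1]) (by linarith [hx.2])
  rw [this]; simp

theorem F1_3 {s : ℝ} (h1 : 1 ≤ s) (h3 : s ≤ 3) : F1 s = 1 / s := by
  rcases le_total s 2 with h | h
  · exact F1_le h1 h
  · have := F1_eq h
    rw [int_f1 h h3] at this
    have hs : s ≠ 0 := by linarith
    field_simp
    linarith

theorem F1_eq3 {s : ℝ} (h3 : 3 ≤ s) : s * F1 s = 1 + ∫ x in (3 : ℝ)..s, f1 (x - 1) := by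
  rw [F1_eq (by linarith), ← intervalIntegral.integral_add_adjacent_intervals
    (f1_sh.intervalIntegrable 2 3) (f1_sh.intervalIntegrable 3 s), int_f1 (by norm_num) le_rfl,
    zero_add]

theorem f1_4 {s : ℝ} (h2 : 2 ≤ s) (h4 : s ≤ 4) : f1 s = Real.log (s - 1) / s := by
  have hs : s ≠ 0 := by linarith
  rw [eq_div_iff hs, mul_comm, f1_eq h2, ← int_inv h2]
  refine intervalIntegral.integral_congr fun x hx => ?_
  rw [uIcc_of_le h2] at hx
  exact F1_3 (by linarith [hx.1]) (by linarith [hx.2])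

theorem F1_anti2 : AntitoneOn F1 (Ici 2) := by
  have hd : ∀ x : ℝ, 2 < x → HasDerivAt F1 (-(R x + E x) / (2 * x)) x := by
    intro x hx
    have hx0 : x ≠ 0 := by linarith
    refine (((U_deriv (c := 1) hx).add (U_deriv (c := -1) hx)).div_const 2).congr_deriv ?_
    rw [R, E]; field_simp; ring
  refine antitoneOn_of_deriv_nonpos (convex_Ici 2) F1_cont.continuousOn ?_ ?_
  · intro x hx
    rw [interior_Ici] at hx
    exact (hd x hx).differentiableAt.differentiableWithinAt
  · intro x hx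
    rw [interior_Ici] at hx
    have hx' : (2 : ℝ) < x := hx
    rw [(hd x hx).deriv]
    have := (abs_lt.mp (key hx'.le)).1
    exact div_nonpos_of_nonpos_of_nonneg (by linarith) (by linarith)

theorem f1_mono2 : MonotoneOn f1 (Ici 2) := by
  have hd : ∀ x : ℝ, 2 < x → HasDerivAt f1 ((R x - E x) / (2 * x)) x := by
    intro x hx
    have hx0 : x ≠ 0 := by linarith
    refine (((U_deriv (c := 1) hx).sub (U_deriv (c := -1) hx)).div_const 2).congr_deriv ?_
    rw [R, E]; field_simp; ring
  refine monotoneOn_of_deriv_nonneg (convex_Ici 2) f1_cont.continuousOn ?_ ?_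
  · intro x hx
    rw [interior_Ici] at hx
    exact (hd x hx).differentiableAt.differentiableWithinAt
  · intro x hx
    rw [interior_Ici] at hx
    have hx' : (2 : ℝ) < x := hx
    rw [(hd x hx).deriv]
    have := (abs_lt.mp (key hx'.le)).2
    exact div_nonneg (by linarith) (by linarith)

theorem F1_ge {s t : ℝ} (h1 : 1 ≤ s) (hst : s ≤ t) (ht : 2 ≤ t) : F1 t ≤ F1 s := by
  rcases le_total s 2 with h | h
  · have e1 : F1 t ≤ F1 2 := F1_anti2 self_mem_Ici ht ht
    refine e1.trans ?_
    rw [F1_le h1 h, F1_le one_le_two le_rfl]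
    have : 0 < s := by linarith
    gcongr
  · exact F1_anti2 h ht hst

theorem f1_ge {s t : ℝ} (h1 : 1 ≤ s) (hst : s ≤ t) (ht : 2 ≤ t) : f1 s ≤ f1 t := by
  rcases le_total s 2 with h | h
  · have e1 : f1 2 ≤ f1 t := f1_mono2 self_mem_Ici ht ht
    refine le_trans ?_ e1
    rw [f1_le h1 h, f1_le one_le_two le_rfl]
  · exact f1_mono2 h ht hst

theorem cross {s t : ℝ} (hs : 1 ≤ s) (ht : 1 ≤ t) : f1 s ≤ F1 t := by
  have h2 : 2 ≤ max (max s t) 2 := le_max_right _ _
  have h3 := f1_ge hs ((le_max_left s t).trans (le_max_left _ 2)) h2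
  have h4 := F1_ge ht ((le_max_right s t).trans (le_max_left _ 2)) h2
  have h5 : 0 < U (-1) (max (max s t) 2) := Q_pos (by linarith)
  have h6 : f1 (max (max s t) 2) ≤ F1 (max (max s t) 2) := by
    rw [f1, F1]; linarith
  linarith

end SFXaux

open SFXaux Pool.Agent.W23.DC in
theorem SFX : St_SFX := by
  obtain ⟨L, hL1, hL2⟩ := exists_between_of_forall_le (s := f1 '' Ici 1) (t := F1 '' Ici 1)
    (nonempty_Ici.image _) (nonempty_Ici.image _) (by
      rintro _ ⟨s, hs, rfl⟩ _ ⟨t, ht, rfl⟩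
      exact cross hs ht)
  have hf : ∀ s : ℝ, 1 ≤ s → f1 s ≤ L := fun s hs => hL1 ⟨s, hs, rfl⟩
  have hF : ∀ s : ℝ, 1 ≤ s → L ≤ F1 s := fun s hs => hL2 ⟨s, hs, rfl⟩
  have hL : 0 < L := by
    have h3 := hf 3 (by norm_num)
    rw [f1_4 (by norm_num) (by norm_num)] at h3
    have : 0 < Real.log (3 - 1) / 3 := div_pos (Real.log_pos (by norm_num)) (by norm_num)
    linarith
  refine ⟨1 / L, fun s => 1 / L * F1 s, fun s => 1 / L * f1 s, ?_⟩
  constructor
  · positivity
  · exact (continuous_const.mul F1_cont).continuousOn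
  · exact (continuous_const.mul f1_cont).continuousOn
  · intro s h1 h3
    show 1 / L * F1 s = 1 / L / s
    rw [F1_3 h1 h3]; ring
  · intro s h1 h2
    show 1 / L * f1 s = 0
    rw [f1_le h1 h2]; ring
  · intro s h2 h4
    show 1 / L * f1 s = 1 / L * Real.log (s - 1) / s
    rw [f1_4 h2 h4]; ring
  · intro s h1
    show 1 ≤ 1 / L * F1 s
    have := hF s h1
    rw [one_div, ← div_eq_inv_mul, le_div_iff₀ hL]
    linarith
  · intro s h1
    show 1 / L * f1 s ≤ 1
    have := hf s h1
    rw [one_div, ← div_eq_inv_mul, div_le_iff₀ hL]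
    linarith
  · intro s h3
    show s * (1 / L * F1 s) = 1 / L + ∫ x in (3 : ℝ)..s, 1 / L * f1 (x - 1)
    rw [intervalIntegral.integral_const_mul]
    have := F1_eq3 h3
    linear_combination (1 / L) * this
  · intro s h2
    show s * (1 / L * f1 s) = ∫ x in (2 : ℝ)..s, 1 / L * F1 (x - 1)
    rw [intervalIntegral.integral_const_mul]
    have := f1_eq h2
    linear_combination (1 / L) * this

end Pool.Agent.W366.DC
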